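import Mathlib
import Pool.Agent.Helper761.Omega1

set_option autoImplicit false

namespace Pool.Agent.Helper531.QD

open Set Cardinal
open Pool.Agent.Helper761.Om

/-- A well-ordered set all of whose initial segments are countable, all of whose countable subsets
are strictly bounded, and which has at most continuum many elements. -/
theorem exists_omega1' : ∃ (ι : Type) (_ : LinearOrder ι) (_ : WellFoundedLT ι),
    (∀ a : ι, (Iio a).Countable) ∧
      (∀ A : Set ι, A.Countable → ∃ b, ∀ a ∈ A, a < b) ∧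
      Cardinal.mk ι ≤ Cardinal.mk (ℕ → Bool) := by
  let ι : Type := (Cardinal.aleph 1).ord.ToType
  have h1 : ∀ a : ι, (Iio a).Countable := by
    intro a
    have h := Cardinal.mk_Iio_toType_ord_lt (c := Cardinal.aleph 1) a
    have h2 : Cardinal.mk (Iio a) ≤ Cardinal.aleph0 := by
      have h3 : Cardinal.aleph 1 = Order.succ Cardinal.aleph0 := by
        rw [← Cardinal.succ_aleph0]
      exact Order.lt_succ_iff.1 (lt_of_lt_of_eq h h3)
    exact Cardinal.le_aleph0_iff_set_countable.1 h2
  have h4 : Cardinal.mk ι = Cardinal.aleph 1 := by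
    simp [ι]
  refine ⟨ι, inferInstance, inferInstance, h1, ?_, ?_⟩
  · intro A hA
    by_contra hcon
    push Not at hcon
    have h2 : (univ : Set ι) = ⋃ a ∈ A, insert a (Iio a) := by
      apply Subset.antisymm _ (subset_univ _)
      intro b _
      obtain ⟨a, ha, hba⟩ := hcon b
      rw [mem_iUnion₂]
      refine ⟨a, ha, ?_⟩
      rcases eq_or_lt_of_le hba with h | h
      · exact Or.inl h
      · exact Or.inr h
    have h3 : (univ : Set ι).Countable := by
      rw [h2]
      exact hA.biUnion (fun a _ => (h1 a).insert a)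
    have h5 : Cardinal.mk ι ≤ Cardinal.aleph0 := by
      have := Cardinal.le_aleph0_iff_set_countable.2 h3
      rwa [Cardinal.mk_univ] at this
    rw [h4] at h5
    exact absurd h5 (not_le.2 Cardinal.aleph0_lt_aleph_one)
  · rw [h4]
    refine Cardinal.aleph_one_le_continuum.trans ?_
    simp [← Cardinal.power_def, Cardinal.mk_bool, Cardinal.two_power_aleph0]

variable {ι : Type} [LinearOrder ι] [WellFoundedLT ι]

/-- Pressing down, stationary form: there is a value `e` and a limit `δ` with this value that is a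
limit of earlier limits with the same value and closed under a given function depending on the
value. -/
theorem pressing2 [Nonempty ι] (hc : ∀ a : ι, (Iio a).Countable)
    (hu : ∀ A : Set ι, A.Countable → ∃ b, ∀ a ∈ A, a < b)
    {E : Type*} (Es : ι → Set E) (hEs : ∀ a, (Es a).Countable) (R : ι → E → Prop)
    (hf : ∀ δ, Lim δ → ∃ β < δ, ∃ e ∈ Es β, R δ e) (h : E → ι → ι) :
    ∃ e δ, Lim δ ∧ R δ e ∧ (∀ a < δ, ∃ b, a < b ∧ b < δ ∧ R b e) ∧ (∀ b < δ, h e b < δ) := by
  -- next element above `a` with value `e`, if any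
  have hnx : ∀ (e : E) (a : ι), ∃ b, (∃ b', a < b' ∧ R b' e) → a < b ∧ R b e := by
    intro e a
    by_cases hx : ∃ b', a < b' ∧ R b' e
    · obtain ⟨b, hb⟩ := hx
      exact ⟨b, fun _ => hb⟩
    · exact ⟨a, fun h' => absurd h' hx⟩
  choose nx hnx using hnx
  -- a bound if the set of value `e` is bounded
  have hbd : ∀ e : E, ∃ b, (∃ b', ∀ c, R c e → c ≤ b') → ∀ c, R c e → c ≤ b := by
    intro e
    by_cases hx : ∃ b', ∀ c, R c e → c ≤ b'
    · obtain ⟨b, hb⟩ := hx
      exact ⟨b, fun _ => hb⟩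
    · exact ⟨Classical.arbitrary ι, fun h' => absurd h' hx⟩
  choose bd hbd using hbd
  have hg : ∀ β : ι, ∃ g : ι, β < g ∧ ∀ β' ≤ β, ∀ e ∈ Es β', bd e < g ∧ nx e β < g ∧
      ∀ b ≤ β, h e b < g := by
    intro β
    have hI : (insert β (Iio β)).Countable := (hc β).insert β
    have hE : (⋃ β' ∈ insert β (Iio β), Es β').Countable := hI.biUnion fun a _ => hEs a
    have hcount : (insert β ((bd '' (⋃ β' ∈ insert β (Iio β), Es β')) ∪
        ((fun e => nx e β) '' (⋃ β' ∈ insert β (Iio β), Es β')) ∪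
        ((fun q : E × ι => h q.1 q.2) '' ((⋃ β' ∈ insert β (Iio β), Es β') ×ˢ
          insert β (Iio β))))).Countable :=
      (((hE.image _).union (hE.image _)).union ((hE.prod hI).image _)).insert β
    obtain ⟨g, hg⟩ := hu _ hcount
    have hmem : ∀ β' ≤ β, β' ∈ insert β (Iio β) := by
      intro β' hβ'
      rcases eq_or_lt_of_le hβ' with h | h
      · exact Or.inl h
      · exact Or.inr h
    refine ⟨g, hg β (mem_insert _ _), ?_⟩
    intro β' hβ' e he
    have he' : e ∈ ⋃ β' ∈ insert β (Iio β), Es β' := mem_iUnion₂.2 ⟨β', hmem β' hβ', he⟩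
    refine ⟨hg _ (Or.inr (Or.inl (Or.inl (mem_image_of_mem _ he')))),
      hg _ (Or.inr (Or.inl (Or.inr (mem_image_of_mem (fun e => nx e β) he')))), ?_⟩
    intro b hb
    exact hg _ (Or.inr (Or.inr ⟨(e, b), ⟨he', hmem b hb⟩, rfl⟩))
  choose g hg1 hg2 using hg
  let s : ℕ → ι := fun n => g^[n] (Classical.arbitrary ι)
  have hs : ∀ n, s (n + 1) = g (s n) := fun n => Function.iterate_succ_apply' g n _
  have hsl : ∀ n, s n < s (n + 1) := fun n => by rw [hs]; exact hg1 _
  have hsm : StrictMono s := strictMono_nat_of_lt_succ hsl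
  obtain ⟨δ, hL, hlt, hcof⟩ := exists_lub hu s hsl
  obtain ⟨β, hβ, e, he, hR⟩ := hf δ hL
  obtain ⟨n, hn⟩ := hcof β hβ
  have hkey : ∀ k, n ≤ k → bd e < s (k + 1) ∧ nx e (s k) < s (k + 1) ∧
      ∀ b ≤ s k, h e b < s (k + 1) := by
    intro k hk
    rw [hs]
    exact hg2 (s k) β (hn.trans (hsm.monotone hk)) e he
  have hunb : ∀ k, ∃ b', s k < b' ∧ R b' e := fun k => ⟨δ, hlt k, hR⟩
  refine ⟨e, δ, hL, hR, ?_, ?_⟩
  · intro a ha
    obtain ⟨j, hj⟩ := hcof a ha
    have h1 := hnx e (s (max j n)) (hunb _)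
    refine ⟨nx e (s (max j n)), ?_, ?_, h1.2⟩
    · exact lt_of_le_of_lt (hj.trans (hsm.monotone (le_max_left _ _))) h1.1
    · exact ((hkey _ (le_max_right _ _)).2.1).trans (hlt _)
  · intro b hb
    obtain ⟨j, hj⟩ := hcof b hb
    exact ((hkey (max j n) (le_max_right _ _)).2.2 b
      (hj.trans (hsm.monotone (le_max_left _ _)))).trans (hlt _)

end Pool.Agent.Helper531.QD
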