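import Mathlib

set_option autoImplicit false

namespace Pool.Agent.Helper531.QD

open Set Topology TopologicalSpace

/-- Separated sets of a completely normal space have disjoint open expansions. -/
theorem sep_pair {X : Type*} [TopologicalSpace X] [CompletelyNormalSpace X] {A B : Set X}
    (h1 : ∀ z ∈ B, ∃ N : Set X, IsOpen N ∧ z ∈ N ∧ Disjoint N A)
    (h2 : ∀ z ∈ A, ∃ N : Set X, IsOpen N ∧ z ∈ N ∧ Disjoint N B) :
    ∃ V : Set X × Set X, IsOpen V.1 ∧ IsOpen V.2 ∧ A ⊆ V.1 ∧ B ⊆ V.2 ∧ Disjoint V.1 V.2 := by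
  have h3 : Disjoint (closure A) B := by
    rw [Set.disjoint_left]
    intro x hx hB
    obtain ⟨N, hN, hxN, hd⟩ := h1 x hB
    obtain ⟨y, hy1, hy2⟩ := mem_closure_iff.1 hx N hN hxN
    exact (Set.disjoint_left.1 hd) hy1 hy2
  have h4 : Disjoint A (closure B) := by
    rw [Set.disjoint_left]
    intro x hA hx
    obtain ⟨N, hN, hxN, hd⟩ := h2 x hA
    obtain ⟨y, hy1, hy2⟩ := mem_closure_iff.1 hx N hN hxN
    exact (Set.disjoint_left.1 hd) hy1 hy2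
  have h5 := completely_normal h3 h4
  rw [← separatedNhds_iff_disjoint] at h5
  obtain ⟨V, W, hV, hW, hsA, htB, hAB⟩ := h5
  exact ⟨(V, W), hV, hW, hsA, htB, hAB⟩

/-- A countable family of open sets that is a base at the points of an open second countable
subspace. -/
theorem exists_base {X : Type*} [TopologicalSpace X] {G : Set X} (hG : IsOpen G)
    (hs : SecondCountableTopology G) : ∃ B : ℕ → Set X, (∀ n, IsOpen (B n)) ∧
      ∀ y ∈ G, ∀ U : Set X, IsOpen U → y ∈ U → ∃ n, y ∈ B n ∧ B n ⊆ U := by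
  obtain ⟨b, hbc, hbe, hb⟩ := exists_countable_basis G
  have : Countable b := hbc.to_subtype
  by_cases hne : b.Nonempty
  · obtain ⟨f, hf⟩ := hbc.exists_eq_range hne
    refine ⟨fun n => Subtype.val '' (f n), ?_, ?_⟩
    · intro n
      apply hG.isOpenMap_subtype_val
      apply hb.isOpen
      rw [hf]
      exact mem_range_self n
    · intro y hy U hU hyU
      obtain ⟨v, hv, hyv, hvU⟩ := hb.exists_subset_of_mem_open (a := (⟨y, hy⟩ : G))
        (u := Subtype.val ⁻¹' U) hyU (hU.preimage continuous_subtype_val)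
      rw [hf] at hv
      obtain ⟨n, rfl⟩ := hv
      refine ⟨n, ⟨⟨y, hy⟩, hyv, rfl⟩, ?_⟩
      rintro _ ⟨z, hz, rfl⟩
      exact hvU hz
  · refine ⟨fun _ => ∅, fun _ => isOpen_empty, ?_⟩
    intro y hy U hU hyU
    obtain ⟨v, hv, _, _⟩ := hb.exists_subset_of_mem_open (a := (⟨y, hy⟩ : G))
      (u := Subtype.val ⁻¹' U) hyU (hU.preimage continuous_subtype_val)
    exact absurd ⟨v, hv⟩ hne

theorem sep_family {X : Type*} [TopologicalSpace X] [T2Space X] [CompletelyNormalSpace X]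
    (B : X → ℕ → Set X) (hBo : ∀ x n, IsOpen (B x n)) (nb : X → Set X)
    (hB : ∀ x, ∀ y ∈ nb x, ∀ U : Set X, IsOpen U → y ∈ U → ∃ n, y ∈ B x n ∧ B x n ⊆ U)
    (L : Set X) (ψ : X → X)
    (h1 : ∀ z ∈ L, ∃ N : Set X, IsOpen N ∧ z ∈ N ∧ ∀ z' ∈ N ∩ L, ψ z' = ψ z)
    (h2 : ∀ z ∈ L, z ∈ nb (ψ z)) (M : Set X) (r : X → ℕ → Bool)
    (hr : ∀ z ∈ L ∩ M, ∀ z' ∈ L ∩ M, r (ψ z) = r (ψ z') → ψ z = ψ z') :
    ∃ PP : Set (Set X × Set X), PP.Countable ∧
      (∀ q ∈ PP, IsOpen q.1 ∧ IsOpen q.2 ∧ Disjoint q.1 q.2) ∧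
      ∀ p ∈ L ∩ M, ∀ y ∈ L ∩ M, p ≠ y → ∃ q ∈ PP, p ∈ q.1 ∧ y ∈ q.2 := by
  haveI : NormalSpace X := inferInstance
  haveI : T3Space X := inferInstance
  -- first kind
  have hV : ∀ k : ℕ, ∃ V : Set X × Set X, IsOpen V.1 ∧ IsOpen V.2 ∧
      {z | z ∈ L ∧ r (ψ z) k = false} ⊆ V.1 ∧ {z | z ∈ L ∧ r (ψ z) k = true} ⊆ V.2 ∧
        Disjoint V.1 V.2 := by
    intro k
    apply sep_pair
    · rintro z ⟨hz, hz'⟩
      obtain ⟨N, hN, hzN, hc⟩ := h1 z hz
      refine ⟨N, hN, hzN, ?_⟩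
      rw [Set.disjoint_left]
      rintro w hw ⟨hw1, hw2⟩
      rw [hc w ⟨hw, hw1⟩, hz'] at hw2
      exact absurd hw2 (by simp)
    · rintro z ⟨hz, hz'⟩
      obtain ⟨N, hN, hzN, hc⟩ := h1 z hz
      refine ⟨N, hN, hzN, ?_⟩
      rw [Set.disjoint_left]
      rintro w hw ⟨hw1, hw2⟩
      rw [hc w ⟨hw, hw1⟩, hz'] at hw2
      exact absurd hw2 (by simp)
  choose V hVo hVo' hVa hVb hVd using hV
  -- second kind
  have hW : ∀ k : ℕ × ℕ, ∃ V : Set X × Set X, IsOpen V.1 ∧ IsOpen V.2 ∧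
      {z | z ∈ L ∧ z ∈ B (ψ z) k.1 ∧
        Disjoint (closure (B (ψ z) k.1)) (closure (B (ψ z) k.2))} ⊆ V.1 ∧
      {z | z ∈ L ∧ z ∈ B (ψ z) k.2 ∧
        Disjoint (closure (B (ψ z) k.1)) (closure (B (ψ z) k.2))} ⊆ V.2 ∧
        Disjoint V.1 V.2 := by
    intro k
    apply sep_pair
    · rintro z ⟨hz, hz', hz''⟩
      obtain ⟨N, hN, hzN, hc⟩ := h1 z hz
      refine ⟨N ∩ (closure (B (ψ z) k.1))ᶜ, hN.inter isClosed_closure.isOpen_compl,
        ⟨hzN, fun hcl => (Set.disjoint_left.1 hz'') hcl (subset_closure hz')⟩, ?_⟩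
      rw [Set.disjoint_left]
      rintro w ⟨hw, hwc⟩ ⟨hw1, hw2, _⟩
      rw [hc w ⟨hw, hw1⟩] at hw2
      exact hwc (subset_closure hw2)
    · rintro z ⟨hz, hz', hz''⟩
      obtain ⟨N, hN, hzN, hc⟩ := h1 z hz
      refine ⟨N ∩ (closure (B (ψ z) k.2))ᶜ, hN.inter isClosed_closure.isOpen_compl,
        ⟨hzN, fun hcl => (Set.disjoint_left.1 hz'') (subset_closure hz') hcl⟩, ?_⟩
      rw [Set.disjoint_left]
      rintro w ⟨hw, hwc⟩ ⟨hw1, hw2, _⟩
      rw [hc w ⟨hw, hw1⟩] at hw2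
      exact hwc (subset_closure hw2)
  choose W hWo hWo' hWa hWb hWd using hW
  refine ⟨range V ∪ range (fun k => ((V k).2, (V k).1)) ∪ range W,
    ((countable_range _).union (countable_range _)).union (countable_range _), ?_, ?_⟩
  · rintro q ((⟨k, rfl⟩ | ⟨k, rfl⟩) | ⟨k, rfl⟩)
    · exact ⟨hVo k, hVo' k, hVd k⟩
    · exact ⟨hVo' k, hVo k, (hVd k).symm⟩
    · exact ⟨hWo k, hWo' k, hWd k⟩
  · intro p hp y hy hpy
    by_cases hψ : ψ p = ψ y
    · -- same label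
      obtain ⟨U, hUo, U', hUo', hpU, hyU, hd⟩ : ∃ U : Set X, IsOpen U ∧ ∃ U' : Set X, IsOpen U' ∧
          p ∈ U ∧ y ∈ U' ∧ Disjoint (closure U) (closure U') := by
        obtain ⟨u, hu, hpu, v, hv, hyv, hd⟩ := exists_open_nhds_disjoint_closure hpy
        exact ⟨u, hpu, v, hyv, hu, hv, hd⟩
      obtain ⟨i, hi1, hi2⟩ := hB (ψ p) p (h2 p hp.1) U hUo hpU
      obtain ⟨j, hj1, hj2⟩ := hB (ψ y) y (h2 y hy.1) U' hUo' hyU
      rw [← hψ] at hj1 hj2
      have hdd : Disjoint (closure (B (ψ p) i)) (closure (B (ψ p) j)) :=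
        hd.mono (closure_mono hi2) (closure_mono hj2)
      refine ⟨W (i, j), Or.inr ⟨(i, j), rfl⟩, hWa (i, j) ⟨hp.1, hi1, hdd⟩,
        hWb (i, j) ⟨hy.1, ?_, ?_⟩⟩
      · rw [← hψ]
        exact hj1
      · rw [← hψ]
        exact hdd
    · have h3 : r (ψ p) ≠ r (ψ y) := fun h => hψ (hr p hp y hy h)
      obtain ⟨k, hk⟩ := Function.ne_iff.1 h3
      cases hpk : r (ψ p) k with
      | false =>
        have hyk : r (ψ y) k = true := by
          rw [hpk] at hk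
          cases h : r (ψ y) k with
          | false => exact absurd h.symm hk
          | true => rfl
        exact ⟨V k, Or.inl (Or.inl ⟨k, rfl⟩), hVa k ⟨hp.1, hpk⟩, hVb k ⟨hy.1, hyk⟩⟩
      | true =>
        have hyk : r (ψ y) k = false := by
          rw [hpk] at hk
          cases h : r (ψ y) k with
          | false => rfl
          | true => exact absurd h.symm hk
        exact ⟨((V k).2, (V k).1), Or.inl (Or.inr ⟨k, rfl⟩), hVb k ⟨hp.1, hpk⟩,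
          hVa k ⟨hy.1, hyk⟩⟩

end Pool.Agent.Helper531.QD
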