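import Mathlib
import Pool.Agent.Helper761.BaloghBennett
import Pool.Agent.Helper531.QD.Press
import Pool.Agent.Helper531.QD.Sep

set_option autoImplicit false

namespace Pool.Agent.Helper531.QD

open Set Topology TopologicalSpace
open Pool.Agent.Helper761.Om Pool.Agent.Helper761.BB

/-- Baire category on the boundary of an open set. -/
theorem baire_boundary {X : Type*} [TopologicalSpace X] [T2Space X] [LocallyCompactSpace X]
    (L : ℕ → Set X) (hcov : ∀ x, ∃ m, x ∈ L m)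
    (hLc : ∀ m, ∃ C O : Set X, IsClosed C ∧ IsOpen O ∧ L m = C ∩ O)
    (F : Set X) (hF : IsClosed F) (hne : F.Nonempty) :
    ∃ x ∈ F, ∃ m, ∃ G : Set X, IsOpen G ∧ x ∈ G ∧ G ∩ F ⊆ L m := by
  haveI : LocallyCompactSpace F := hF.isClosedEmbedding_subtypeVal.locallyCompactSpace
  haveI : Nonempty F := hne.to_subtype
  obtain ⟨m, z, hz⟩ := nonempty_interior_of_iUnion_of_closed
    (f := fun m => closure (Subtype.val ⁻¹' (L m) : Set F)) (fun m => isClosed_closure)
    (by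
      rw [Set.eq_univ_iff_forall]
      intro x
      obtain ⟨m, hm⟩ := hcov x.1
      exact mem_iUnion.2 ⟨m, subset_closure hm⟩)
  obtain ⟨w, hw1, hw2⟩ := mem_closure_iff.1 (interior_subset hz) _ isOpen_interior hz
  obtain ⟨G, hG, hGe⟩ := isOpen_induced_iff.1
    (isOpen_interior (s := closure (Subtype.val ⁻¹' (L m) : Set F)))
  obtain ⟨C, O, hC, hO, hL⟩ := hLc m
  refine ⟨w.1, w.2, m, G ∩ O, hG.inter hO, ⟨?_, ?_⟩, ?_⟩
  · have : w ∈ Subtype.val ⁻¹' G := by rw [hGe]; exact hw1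
    exact this
  · have : w.1 ∈ L m := hw2
    rw [hL] at this
    exact this.2
  · rintro v ⟨⟨hvG, hvO⟩, hvF⟩
    have h1 : (⟨v, hvF⟩ : F) ∈ closure (Subtype.val ⁻¹' (L m) : Set F) := by
      apply interior_subset
      rw [← hGe]
      exact hvG
    have h2 : closure (Subtype.val ⁻¹' (L m) : Set F) ⊆ Subtype.val ⁻¹' C := by
      apply closure_minimal _ (hC.preimage continuous_subtype_val)
      intro u hu
      have : u.1 ∈ L m := hu
      rw [hL] at this
      exact this.1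
    rw [hL]
    exact ⟨h2 h1, hvO⟩

/-- Injective coding by reals of a set of labels. -/
theorem exists_code {X : Type*} {ι : Type} (hι : Cardinal.mk ι ≤ Cardinal.mk (ℕ → Bool))
    (g : ι × ℕ → X) :
    ∃ r : X → ℕ → Bool, ∀ a ∈ range g, ∀ b ∈ range g, r a = r b → a = b := by
  have hc : Cardinal.mk (ℕ → Bool) = Cardinal.continuum := by
    simp
  have h1 : Cardinal.mk (ι × ℕ) ≤ Cardinal.mk (ℕ → Bool) := by
    rw [hc] at hι ⊢
    rw [Cardinal.mk_prod, Cardinal.lift_id, Cardinal.lift_id, Cardinal.mk_nat]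
    calc Cardinal.mk ι * Cardinal.aleph0 ≤ Cardinal.continuum * Cardinal.aleph0 := by gcongr
      _ = Cardinal.continuum := Cardinal.continuum_mul_aleph0
  obtain ⟨f⟩ := h1
  classical
  refine ⟨fun a => if h : a ∈ range g then f h.choose else fun _ => false, ?_⟩
  intro a ha b hb hab
  simp only [ha, hb, dif_pos] at hab
  have h3 := f.injective hab
  rw [← ha.choose_spec, ← hb.choose_spec, h3]

theorem connected_case {X : Type*} [TopologicalSpace X] [T2Space X] [LocallyCompactSpace X]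
    [LocallyConnectedSpace X] [ConnectedSpace X] [CompletelyNormalSpace X]
    (nb : X → Set X) (hno : ∀ x, IsOpen (nb x)) (hnm : ∀ x, x ∈ nb x)
    (B : X → ℕ → Set X) (hBo : ∀ x n, IsOpen (B x n))
    (hB : ∀ x, ∀ y ∈ nb x, ∀ U : Set X, IsOpen U → y ∈ U → ∃ n, y ∈ B x n ∧ B x n ⊆ U)
    (L : ℕ → Set X) (ψ : ℕ → X → X) (hLcov : ∀ x, ∃ m, x ∈ L m)
    (hLc : ∀ m, ∃ C O : Set X, IsClosed C ∧ IsOpen O ∧ L m = C ∩ O)
    (h1 : ∀ m, ∀ z ∈ L m, ∃ N : Set X, IsOpen N ∧ z ∈ N ∧ ∀ z' ∈ N ∩ L m, ψ m z' = ψ m z)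
    (h2 : ∀ m, ∀ z ∈ L m, z ∈ nb (ψ m z)) :
    ∃ A : Set X, A.Countable ∧ (⋃ a ∈ A, nb a) = univ := by
  classical
  by_contra hcon
  push Not at hcon
  obtain ⟨ι, _, _, hc, hu, hcard⟩ := exists_omega1'
  haveI : Nonempty ι := by
    obtain ⟨b, _⟩ := hu ∅ countable_empty
    exact ⟨b⟩
  haveI : T3Space X := inferInstance
  -- countable dense sets of the neighbourhoods
  have hdex : ∀ x n, ∃ d : X, (B x n).Nonempty → d ∈ B x n := by
    intro x n
    by_cases h : (B x n).Nonempty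
    · exact ⟨h.some, fun _ => h.some_mem⟩
    · exact ⟨x, fun h' => absurd h' h⟩
  choose dd hdd using hdex
  obtain ⟨D, hDdef⟩ : ∃ D : X → Set X, ∀ x, D x = range (dd x) := ⟨_, fun _ => rfl⟩
  have hDc : ∀ x, (D x).Countable := fun x => by rw [hDdef]; exact countable_range _
  have hdense : ∀ G : Set X, IsOpen G → ∀ x, (G ∩ nb x).Nonempty →
      ∃ d ∈ D x, d ∈ G ∧ d ∈ nb x := by
    rintro G hG x ⟨y, hyG, hyn⟩
    obtain ⟨n, hn1, hn2⟩ := hB x y hyn (G ∩ nb x) (hG.inter (hno x)) ⟨hyG, hyn⟩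
    have h3 := hdd x n ⟨y, hn1⟩
    refine ⟨dd x n, ?_, (hn2 h3).1, (hn2 h3).2⟩
    rw [hDdef]
    exact mem_range_self n
  -- the choice of boundary points
  have hPex : ∀ O : Set X, ∃ x : X, IsOpen O → (closure O \ O).Nonempty →
      x ∈ closure O \ O ∧ ∃ m, ∃ G : Set X, IsOpen G ∧ x ∈ G ∧ G ∩ (closure O \ O) ⊆ L m := by
    intro O
    by_cases h : IsOpen O ∧ (closure O \ O).Nonempty
    · obtain ⟨hO, hne⟩ := h
      obtain ⟨x, hx, m, G, hG, hxG, hGF⟩ := baire_boundary L hLcov hLc (closure O \ O)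
        (isClosed_closure.sdiff hO) hne
      exact ⟨x, fun _ _ => ⟨hx, m, G, hG, hxG, hGF⟩⟩
    · exact ⟨Classical.arbitrary X, fun h1 h2 => absurd ⟨h1, h2⟩ h⟩
  choose P hP using hPex
  obtain ⟨p, hp⟩ := exists_rec (ι := ι) nb P
  obtain ⟨O, hOdef⟩ : ∃ O : ι → Set X, ∀ α, O α = ⋃ β ∈ Iio α, nb (p β) := ⟨_, fun _ => rfl⟩
  have hOo : ∀ α, IsOpen (O α) := by
    intro α
    rw [hOdef]
    exact isOpen_biUnion fun β _ => hno _
  have hnbO : ∀ {α β : ι}, α < β → nb (p α) ⊆ O β := by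
    intro α β h
    rw [hOdef]
    exact subset_biUnion_of_mem (u := fun β => nb (p β)) h
  have hOm : ∀ {α β : ι}, α ≤ β → O α ⊆ O β := by
    intro α β h
    rw [hOdef α]
    exact iUnion₂_subset fun γ hγ => hnbO (lt_of_lt_of_le hγ h)
  have hOmem : ∀ {α : ι} {x : X}, x ∈ O α → ∃ β < α, x ∈ nb (p β) := by
    intro α x hx
    rw [hOdef, mem_iUnion₂] at hx
    obtain ⟨β, hβ, hx⟩ := hx
    exact ⟨β, hβ, hx⟩
  have hpO : ∀ α, (∃ a, a < α) → p α ∈ closure (O α) \ O α ∧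
      ∃ m, ∃ G : Set X, IsOpen G ∧ p α ∈ G ∧ G ∩ (closure (O α) \ O α) ⊆ L m := by
    rintro α ⟨a, ha⟩
    have h3 : (closure (O α) \ O α).Nonempty := by
      by_contra hemp
      rw [Set.not_nonempty_iff_eq_empty, Set.diff_eq_empty] at hemp
      have hcl : IsClosed (O α) := by
        rw [← closure_eq_iff_isClosed]
        exact Subset.antisymm hemp subset_closure
      rcases isClopen_iff.1 ⟨hcl, hOo α⟩ with h | h
      · have : p a ∈ O α := hnbO ha (hnm _)
        rw [h] at this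
        exact this
      · apply hcon (p '' Iio α) ((hc α).image p)
        rw [biUnion_image, ← hOdef, h]
    have h4 := hP _ (hOo α) h3
    rw [hOdef α] at h4
    rw [hp α, hOdef α]
    exact h4
  -- the reals coding the labels
  obtain ⟨M, hM⟩ : ∃ M : Set X, M = ⋃ β : ι, nb (p β) := ⟨_, rfl⟩
  have hnbM : ∀ β, nb (p β) ⊆ M := fun β => by
    rw [hM]
    exact subset_iUnion (fun β => nb (p β)) β
  have hcode : ∀ m, ∃ r : X → ℕ → Bool, ∀ z ∈ L m ∩ M, ∀ z' ∈ L m ∩ M,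
      r (ψ m z) = r (ψ m z') → ψ m z = ψ m z' := by
    intro m
    have hgex : ∀ k : ι × ℕ, ∃ l : X, ∀ z ∈ L m, z ∈ B (p k.1) k.2 →
        (∀ z' ∈ B (p k.1) k.2 ∩ L m, ψ m z' = ψ m z) → ψ m z = l := by
      intro k
      by_cases h : ∃ z ∈ L m, z ∈ B (p k.1) k.2 ∧ (∀ z' ∈ B (p k.1) k.2 ∩ L m, ψ m z' = ψ m z)
      · obtain ⟨w, hw1, hw2, hw3⟩ := h
        refine ⟨ψ m w, ?_⟩
        intro z hz hzB _
        exact hw3 z ⟨hzB, hz⟩
      · refine ⟨Classical.arbitrary X, ?_⟩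
        intro z hz hzB hzz
        exact absurd ⟨z, hz, hzB, hzz⟩ h
    choose g hg using hgex
    have hgr : ∀ z ∈ L m ∩ M, ψ m z ∈ range g := by
      rintro z ⟨hz, hzM⟩
      rw [hM] at hzM
      obtain ⟨β, hβ⟩ := mem_iUnion.1 hzM
      obtain ⟨N, hN, hzN, hNc⟩ := h1 m z hz
      obtain ⟨n, hn1, hn2⟩ := hB (p β) z hβ N hN hzN
      refine ⟨(β, n), ?_⟩
      symm
      exact hg (β, n) z hz hn1 (fun z' hz' => hNc z' ⟨hn2 hz'.1, hz'.2⟩)
    obtain ⟨r, hr⟩ := exists_code hcard g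
    exact ⟨r, fun z hz z' hz' => hr _ (hgr z hz) _ (hgr z' hz')⟩
  choose r hr using hcode
  have hfam := fun m => sep_family B hBo nb hB (L m) (ψ m) (h1 m) (h2 m) M (r m) (hr m)
  choose PP hPPc hPPo hPPs using hfam
  -- the countable families of pairs
  obtain ⟨QQ, hQQ⟩ : ∃ QQ : ι → Set (Set X × Set X), ∀ α, QQ α =
      (⋃ β ∈ Iio α, range (fun n => ((closure (B (p β) n))ᶜ, B (p β) n))) ∪ ⋃ m, PP m :=
    ⟨_, fun _ => rfl⟩
  have hQQc : ∀ α, (QQ α).Countable := by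
    intro α
    rw [hQQ]
    exact ((hc α).biUnion fun β _ => countable_range _).union (countable_iUnion hPPc)
  have hQQm : ∀ {α β : ι}, α ≤ β → QQ α ⊆ QQ β := by
    intro α β h
    rw [hQQ, hQQ]
    apply union_subset_union_left
    exact biUnion_subset_biUnion_left (fun γ hγ => lt_of_lt_of_le hγ h)
  have hQQo : ∀ α, ∀ q ∈ QQ α, IsOpen q.1 ∧ IsOpen q.2 ∧ Disjoint q.1 q.2 := by
    intro α q hq
    rw [hQQ] at hq
    rcases hq with hq | hq
    · rw [mem_iUnion₂] at hq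
      obtain ⟨β, _, n, rfl⟩ := hq
      refine ⟨isClosed_closure.isOpen_compl, hBo _ _, ?_⟩
      exact (disjoint_compl_left (a := closure (B (p β) n))).mono_right subset_closure
    · obtain ⟨m, hm⟩ := mem_iUnion.1 hq
      exact hPPo m q hm
  obtain ⟨V, hVdef⟩ : ∃ V : Finset (Set X × Set X) → Set X, ∀ F, V F = ⋂ q ∈ F, q.1 :=
    ⟨_, fun _ => rfl⟩
  obtain ⟨Es, hEs⟩ : ∃ Es : ι → Set (Finset (Set X × Set X) × X × ℕ), ∀ α e, e ∈ Es α ↔
      (∀ q ∈ e.1, q ∈ QQ α) ∧ e.2.1 ∈ ⋃ β ∈ Iio α, D (p β) :=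
    ⟨fun α => {e | (∀ q ∈ e.1, q ∈ QQ α) ∧ e.2.1 ∈ ⋃ β ∈ Iio α, D (p β)},
      fun _ _ => Iff.rfl⟩
  have hEsc : ∀ α, (Es α).Countable := by
    intro α
    have h3 : {F : Finset (Set X × Set X) | ∀ q ∈ F, q ∈ QQ α}.Countable := by
      have h4 : {t : Set (Set X × Set X) | t.Finite ∧ t ⊆ QQ α}.Countable :=
        Set.countable_setOf_finite_subset (hQQc α)
      have h5 := h4.preimage_of_injOn (f := fun F : Finset (Set X × Set X) => (F : Set _))
        (Finset.coe_injective.injOn)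
      refine h5.mono ?_
      intro F hF
      refine ⟨F.finite_toSet, ?_⟩
      intro q hq
      exact hF q hq
    have h4 : (⋃ β ∈ Iio α, D (p β)).Countable := (hc α).biUnion fun β _ => hDc _
    refine (h3.prod (h4.prod (countable_univ (α := ℕ)))).mono ?_
    intro e he
    rw [hEs] at he
    exact ⟨he.1, he.2, mem_univ _⟩
  -- the relation
  obtain ⟨R, hR⟩ : ∃ R : ι → Finset (Set X × Set X) × X × ℕ → Prop, ∀ δ e, R δ e ↔
      IsOpen (V e.1) ∧ ∃ W N : Set X, IsCompact W ∧ W ⊆ nb (p δ) ∧ N ⊆ interior W ∧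
        IsPreconnected N ∧ p δ ∈ N ∧ N ⊆ V e.1 ∧ e.2.1 ∈ N ∧ e.2.1 ∈ O δ ∧
        Disjoint (V e.1) (frontier W ∩ closure (O δ)) ∧
        W ∩ (closure (O δ) \ O δ) ⊆ L e.2.2 ∧ p δ ∉ O δ := ⟨_, fun _ _ => Iff.rfl⟩
  have hf : ∀ δ, Lim δ → ∃ β < δ, ∃ e ∈ Es β, R δ e := by
    intro δ hL
    obtain ⟨⟨hp1, hp2⟩, m, G, hG, hpG, hGL⟩ := hpO δ hL.1
    obtain ⟨W, hWc, hWi, hWn⟩ := exists_compact_subset ((hno (p δ)).inter hG) ⟨hnm (p δ), hpG⟩
    have hWL : W ∩ (closure (O δ) \ O δ) ⊆ L m := fun z hz => hGL ⟨(hWn hz.1).2, hz.2⟩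
    have hBc : IsCompact (frontier W ∩ closure (O δ)) := by
      refine hWc.of_isClosed_subset (isClosed_frontier.inter isClosed_closure) ?_
      intro x hx
      exact hWc.isClosed.frontier_subset hx.1
    obtain ⟨β, hβ, F, hF1, hF2, hF3⟩ : ∃ β < δ, ∃ F : Finset (Set X × Set X),
        (∀ q ∈ F, q ∈ QQ β) ∧ p δ ∈ V F ∧
          Disjoint (V F) (frontier W ∩ closure (O δ)) := by
      refine hBc.induction_on (p := fun s => ∃ β < δ, ∃ F : Finset (Set X × Set X),
        (∀ q ∈ F, q ∈ QQ β) ∧ p δ ∈ V F ∧ Disjoint (V F) s) ?_ ?_ ?_ ?_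
      · obtain ⟨a, ha⟩ := hL.1
        refine ⟨a, ha, ∅, by simp, ?_, disjoint_empty _⟩
        rw [hVdef]
        simp
      · rintro s t hst ⟨β, hβ, F, h1, h2, h3⟩
        exact ⟨β, hβ, F, h1, h2, h3.mono_right hst⟩
      · rintro s t ⟨β, hβ, F, h1, h2, h3⟩ ⟨β', hβ', F', h1', h2', h3'⟩
        have hVu : V (F ∪ F') = V F ∩ V F' := by
          rw [hVdef, hVdef, hVdef]
          ext x
          simp only [mem_iInter, Finset.mem_union, mem_inter_iff]
          constructor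
          · intro h
            exact ⟨fun q hq => h q (Or.inl hq), fun q hq => h q (Or.inr hq)⟩
          · rintro ⟨h, h'⟩ q (hq | hq)
            · exact h q hq
            · exact h' q hq
        refine ⟨max β β', max_lt hβ hβ', F ∪ F', ?_, ?_, ?_⟩
        · intro q hq
          rcases Finset.mem_union.1 hq with hq | hq
          · exact hQQm (le_max_left _ _) (h1 q hq)
          · exact hQQm (le_max_right _ _) (h1' q hq)
        · rw [hVu]
          exact ⟨h2, h2'⟩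
        · rw [hVu, disjoint_union_right]
          exact ⟨h3.mono_left inter_subset_left, h3'.mono_left inter_subset_right⟩
      · rintro b ⟨hb1, hb2⟩
        have hne : p δ ≠ b := by
          rintro rfl
          exact hb1.2 hWi
        have hbW : b ∈ W := hWc.isClosed.frontier_subset hb1
        obtain ⟨q, β, hβ, hq, hpq, hbq⟩ : ∃ q : Set X × Set X, ∃ β < δ, q ∈ QQ β ∧ p δ ∈ q.1 ∧
            b ∈ q.2 := by
          by_cases hbO : b ∈ O δ
          · obtain ⟨γ, hγ, hbγ⟩ := hOmem hbO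
            obtain ⟨U, hpU, hUo, U', hbU', hUo', hd⟩ := exists_open_nhds_disjoint_closure hne
            obtain ⟨n, hn1, hn2⟩ := hB (p γ) b hbγ U' hUo' hbU'
            obtain ⟨β, hβ1, hβ2⟩ := hL.2 γ hγ
            refine ⟨((closure (B (p γ) n))ᶜ, B (p γ) n), β, hβ2, ?_, ?_, hn1⟩
            · rw [hQQ]
              left
              rw [mem_iUnion₂]
              exact ⟨γ, hβ1, n, rfl⟩
            · intro hcl
              exact (Set.disjoint_left.1 hd) (subset_closure hpU) (closure_mono hn2 hcl)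
          · obtain ⟨a, ha⟩ := hL.1
            obtain ⟨q, hq, hq1, hq2⟩ := hPPs m (p δ)
              ⟨hWL ⟨interior_subset hWi, hp1, hp2⟩, hnbM δ (hnm _)⟩ b
              ⟨hWL ⟨hbW, hb2, hbO⟩, hnbM δ (hWn hbW).1⟩ hne
            refine ⟨q, a, ha, ?_, hq1, hq2⟩
            rw [hQQ]
            exact Or.inr (mem_iUnion.2 ⟨m, hq⟩)
        obtain ⟨hqo, hqo', hqd⟩ := hQQo β q hq
        refine ⟨q.2, mem_nhdsWithin_of_mem_nhds (hqo'.mem_nhds hbq), β, hβ, {q}, ?_, ?_, ?_⟩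
        · intro q' hq'
          rw [Finset.mem_singleton] at hq'
          rw [hq']
          exact hq
        · rw [hVdef]
          simpa using hpq
        · rw [hVdef]
          simpa using hqd
    have hVo : IsOpen (V F) := by
      rw [hVdef]
      exact isOpen_biInter_finset fun q hq => (hQQo β q (hF1 q hq)).1
    obtain ⟨N, hNsub, hNo, hpN, hNc⟩ :=
      locallyConnectedSpace_iff_subsets_isOpen_isConnected.1 (inferInstance : LocallyConnectedSpace X)
        (p δ) (V F ∩ interior W) ((hVo.inter isOpen_interior).mem_nhds ⟨hF2, hWi⟩)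
    obtain ⟨y, hyN, hyO⟩ := mem_closure_iff.1 hp1 N hNo hpN
    obtain ⟨γ, hγ, hyγ⟩ := hOmem hyO
    obtain ⟨d, hd, hdN, hdn⟩ := hdense N hNo (p γ) ⟨y, hyN, hyγ⟩
    obtain ⟨γ', hγ1, hγ2⟩ := hL.2 γ hγ
    refine ⟨max β γ', max_lt hβ hγ2, (F, d, m), ?_, ?_⟩
    · rw [hEs]
      refine ⟨fun q hq => hQQm (le_max_left _ _) (hF1 q hq), ?_⟩
      rw [mem_iUnion₂]
      exact ⟨γ, lt_of_lt_of_le hγ1 (le_max_right _ _), hd⟩
    · rw [hR]
      exact ⟨hVo, W, N, hWc, fun z hz => (hWn hz).1, fun z hz => (hNsub hz).2,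
        hNc.isPreconnected, hpN, fun z hz => (hNsub hz).1, hdN, hnbO hγ hdn, hF3, hWL, hp2⟩
  -- the components
  obtain ⟨K, hK⟩ : ∃ K : Finset (Set X × Set X) × X × ℕ → ι → Set X, ∀ e δ,
      K e δ = connectedComponentIn (V e.1 ∩ O δ) e.2.1 := ⟨_, fun _ _ => rfl⟩
  have hKm : ∀ e, ∀ {δ δ' : ι}, δ ≤ δ' → K e δ ⊆ K e δ' := by
    intro e δ δ' h
    rw [hK, hK]
    exact connectedComponentIn_mono _ (inter_subset_inter_right _ (hOm h))
  -- the points of the boundaries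
  have hqex : ∀ e δ, ∃ q : X, R δ e → q ∈ closure (K e δ) ∧ q ∈ closure (O δ) \ O δ ∧
      q ∈ nb (p δ) ∧ q ∈ L e.2.2 := by
    intro e δ
    by_cases hRe : R δ e
    swap
    · exact ⟨Classical.arbitrary X, fun h => absurd h hRe⟩
    have hRe' := hRe
    rw [hR] at hRe'
    obtain ⟨hVo, W, N, hWc, hWn, hNi, hNp, hpN, hNV, hxN, hxO, hdis, hWL, hpnO⟩ := hRe'
    have hxK : e.2.1 ∈ K e δ := by
      rw [hK]
      exact mem_connectedComponentIn ⟨hNV hxN, hxO⟩
    have hKVO : K e δ ⊆ V e.1 ∩ O δ := by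
      rw [hK]
      exact connectedComponentIn_subset _ _
    have hKW : K e δ ⊆ interior W := by
      apply subset_interior_of_preconnected
      · rw [hK]
        exact isPreconnected_connectedComponentIn
      · exact ⟨_, hxK, hNi hxN⟩
      · rw [Set.disjoint_left]
        intro z hz hzf
        have hz2 := hKVO hz
        exact (Set.disjoint_left.1 hdis) hz2.1 ⟨hzf, subset_closure hz2.2⟩
    have hKclW : closure (K e δ) ⊆ W := closure_minimal (hKW.trans interior_subset) hWc.isClosed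
    have hKo : IsOpen (K e δ) := by
      rw [hK]
      exact (hVo.inter (hOo δ)).connectedComponentIn
    obtain ⟨C, hC⟩ : ∃ C : Set X, C = connectedComponentIn (V e.1) e.2.1 := ⟨_, rfl⟩
    have hNC : N ⊆ C := by
      rw [hC]
      exact hNp.subset_connectedComponentIn hxN hNV
    have hCp : IsPreconnected C := by
      rw [hC]
      exact isPreconnected_connectedComponentIn
    obtain ⟨q, hqC, hqK, hqnK⟩ : ∃ q ∈ C, q ∈ closure (K e δ) ∧ q ∉ K e δ := by
      by_contra hno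
      push Not at hno
      have h3 : C ⊆ K e δ ∪ (closure (K e δ))ᶜ := by
        intro z hz
        by_cases h : z ∈ closure (K e δ)
        · exact Or.inl (hno z hz h)
        · exact Or.inr h
      have h4 : C ⊆ K e δ := by
        refine hCp.subset_left_of_subset_union hKo isClosed_closure.isOpen_compl ?_ h3
          ⟨_, hNC hxN, hxK⟩
        rw [Set.disjoint_left]
        intro z hz hz'
        exact hz' (subset_closure hz)
      exact hpnO (hKVO (h4 (hNC hpN))).2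
    have hqV : q ∈ V e.1 := by
      rw [hC] at hqC
      exact connectedComponentIn_subset _ _ hqC
    have hqnO : q ∉ O δ := by
      intro hqO
      have h3 : IsOpen (connectedComponentIn (V e.1 ∩ O δ) q) :=
        (hVo.inter (hOo δ)).connectedComponentIn
      have h4 : q ∈ connectedComponentIn (V e.1 ∩ O δ) q := mem_connectedComponentIn ⟨hqV, hqO⟩
      obtain ⟨w, hw1, hw2⟩ := mem_closure_iff.1 hqK _ h3 h4
      rw [hK] at hw2
      have h5 := connectedComponentIn_eq hw1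
      have h6 := connectedComponentIn_eq hw2
      apply hqnK
      rw [hK, h6, ← h5]
      exact h4
    have hqcl : q ∈ closure (O δ) := closure_mono (fun z hz => (hKVO hz).2) hqK
    exact ⟨q, fun _ => ⟨hqK, ⟨hqcl, hqnO⟩, hWn (hKclW hqK), hWL ⟨hKclW hqK, hqcl, hqnO⟩⟩⟩
  choose q hq using hqex
  -- the bound for points with the same label
  have hhex : ∀ e b, ∃ c, R b e → ∀ b', R b' e → ψ e.2.2 (q e b') = ψ e.2.2 (q e b) → b' < c := by
    intro e b
    by_cases hRb : R b e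
    swap
    · exact ⟨b, fun h => absurd h hRb⟩
    obtain ⟨l, hl⟩ : ∃ l, l = ψ e.2.2 (q e b) := ⟨_, rfl⟩
    have hnex : ∀ b', ∃ n : ℕ, R b' e → ψ e.2.2 (q e b') = l →
        q e b' ∈ B l n ∧ B l n ⊆ nb (p b') := by
      intro b'
      by_cases h : R b' e ∧ ψ e.2.2 (q e b') = l
      · obtain ⟨h3, h4⟩ := h
        obtain ⟨h5, h6, h7, h8⟩ := hq e b' h3
        have h9 := h2 e.2.2 _ h8
        rw [h4] at h9
        obtain ⟨n, hn⟩ := hB l _ h9 (nb (p b')) (hno _) h7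
        exact ⟨n, fun _ _ => hn⟩
      · exact ⟨0, fun h3 h4 => absurd ⟨h3, h4⟩ h⟩
    choose n hn using hnex
    have hcnt : {b' | R b' e ∧ ψ e.2.2 (q e b') = l}.Countable := by
      have hinj : InjOn n {b' | R b' e ∧ ψ e.2.2 (q e b') = l} := by
        have key : ∀ b1 b2, b1 < b2 → R b1 e → ψ e.2.2 (q e b1) = l → R b2 e →
            ψ e.2.2 (q e b2) = l → n b1 ≠ n b2 := by
          intro b1 b2 hlt hR1 hl1 hR2 hl2 heq
          have h3 := (hn b2 hR2 hl2).1
          rw [← heq] at h3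
          exact (hq e b2 hR2).2.1.2 (hnbO hlt ((hn b1 hR1 hl1).2 h3))
        rintro b1 ⟨hR1, hl1⟩ b2 ⟨hR2, hl2⟩ heq
        rcases lt_trichotomy b1 b2 with h | h | h
        · exact absurd heq (key b1 b2 h hR1 hl1 hR2 hl2)
        · exact h
        · exact absurd heq.symm (key b2 b1 h hR2 hl2 hR1 hl1)
      exact (mapsTo_univ n _).countable_of_injOn hinj (countable_univ (α := ℕ))
    obtain ⟨c, hc'⟩ := hu _ hcnt
    refine ⟨c, fun _ b' hb' hb'' => hc' b' ⟨hb', ?_⟩⟩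
    rw [hl]
    exact hb''
  choose hh hhh using hhex
  obtain ⟨e, δ, hL, hRδ, hlim, hcl⟩ := pressing2 hc hu Es hEsc R hf hh
  -- the contradiction
  have hRδ' := hRδ
  rw [hR] at hRδ'
  obtain ⟨hVo, W, N, hWc, hWn, hNi, hNp, hpN, hNV, hxN, hxO, hdis, hWL, hpnO⟩ := hRδ'
  have hKclW : closure (K e δ) ⊆ W := by
    refine closure_minimal (Subset.trans ?_ interior_subset) hWc.isClosed
    apply subset_interior_of_preconnected
    · rw [hK]
      exact isPreconnected_connectedComponentIn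
    · refine ⟨e.2.1, ?_, hNi hxN⟩
      rw [hK]
      exact mem_connectedComponentIn ⟨hNV hxN, hxO⟩
    · rw [Set.disjoint_left]
      intro z hz hzf
      rw [hK] at hz
      have hz2 := connectedComponentIn_subset _ _ hz
      exact (Set.disjoint_left.1 hdis) hz2.1 ⟨hzf, subset_closure hz2.2⟩
  have hKc : IsCompact (closure (K e δ)) := hWc.of_isClosed_subset isClosed_closure hKclW
  obtain ⟨a, ha, hafin⟩ : ∃ a < δ, ∀ b, R b e → a < b → b < δ → q e b ∉ closure (K e δ) := by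
    refine hKc.induction_on (p := fun s => ∃ a < δ, ∀ b, R b e → a < b → b < δ → q e b ∉ s)
      ?_ ?_ ?_ ?_
    · obtain ⟨a, ha⟩ := hL.1
      exact ⟨a, ha, fun _ _ _ _ => notMem_empty _⟩
    · rintro s t hst ⟨a, ha, h⟩
      exact ⟨a, ha, fun b h3 h4 h5 h6 => h b h3 h4 h5 (hst h6)⟩
    · rintro s t ⟨a, ha, h⟩ ⟨a', ha', h'⟩
      refine ⟨max a a', max_lt ha ha', ?_⟩
      rintro b h3 h4 h5 (h6 | h6)
      · exact h b h3 (lt_of_le_of_lt (le_max_left _ _) h4) h5 h6
      · exact h' b h3 (lt_of_le_of_lt (le_max_right _ _) h4) h5 h6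
    · intro z hz
      by_cases hzO : z ∈ O δ
      · obtain ⟨γ, hγ, hzγ⟩ := hOmem hzO
        refine ⟨nb (p γ), mem_nhdsWithin_of_mem_nhds ((hno _).mem_nhds hzγ), γ, hγ, ?_⟩
        intro b hb hγb _ hqb
        exact (hq e b hb).2.1.2 (hnbO hγb hqb)
      · have hzcl : z ∈ closure (O δ) := by
          refine closure_mono ?_ hz
          intro w hw
          rw [hK] at hw
          exact (connectedComponentIn_subset _ _ hw).2
        have hzL : z ∈ L e.2.2 := hWL ⟨hKclW hz, hzcl, hzO⟩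
        obtain ⟨N', hN', hzN', hNc'⟩ := h1 e.2.2 z hzL
        by_cases hex : ∃ b0, b0 < δ ∧ R b0 e ∧ q e b0 ∈ N'
        · obtain ⟨b0, hb0, hRb0, hqb0⟩ := hex
          refine ⟨N', mem_nhdsWithin_of_mem_nhds (hN'.mem_nhds hzN'), hh e b0, hcl b0 hb0, ?_⟩
          intro b hb hlt _ hqb
          have h3 := hNc' _ ⟨hqb0, (hq e b0 hRb0).2.2.2⟩
          have h4 := hNc' _ ⟨hqb, (hq e b hb).2.2.2⟩
          have h5 := hhh e b0 hRb0 b hb (by rw [h3, h4])
          exact absurd h5 (not_lt.2 hlt.le)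
        · obtain ⟨a, ha⟩ := hL.1
          refine ⟨N', mem_nhdsWithin_of_mem_nhds (hN'.mem_nhds hzN'), a, ha, ?_⟩
          intro b hb _ hbδ hqb
          exact hex ⟨b, hbδ, hb, hqb⟩
  obtain ⟨b, hab, hbδ, hRb⟩ := hlim a ha
  exact hafin b hRb hab hbδ (closure_mono (hKm e hbδ.le) (hq e b hRb).1)

end Pool.Agent.Helper531.QD
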