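import Mathlib
import Pool.Agent.Helper761.CompMet
import Pool.Agent.Helper531.QD.Conn

set_option autoImplicit false

namespace Pool.Agent.Helper531.QD

open Set Topology TopologicalSpace

/-- A quasi-development gives a countable cover by locally closed sets, each with a locally
constant labelling by neighbourhoods of a given assignment. -/
theorem qd_decomp {X : Type*} [TopologicalSpace X]
    (nb : X → Set X) (hnm : ∀ x, x ∈ nb x) (hno : ∀ x, IsOpen (nb x))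
    (G : ℕ → Set (Set X)) (hGo : ∀ k, ∀ s ∈ G k, IsOpen s)
    (hG : ∀ x : X, ∀ U : Set X, IsOpen U → x ∈ U →
      ∃ k, x ∈ ⋃₀ {s ∈ G k | x ∈ s} ∧ ⋃₀ {s ∈ G k | x ∈ s} ⊆ U) :
    ∃ (L : ℕ → Set X) (ψ : ℕ → X → X), (∀ x, ∃ m, x ∈ L m) ∧
      (∀ m, ∃ C O : Set X, IsClosed C ∧ IsOpen O ∧ L m = C ∩ O) ∧
      (∀ m, ∀ z ∈ L m, ∃ N : Set X, IsOpen N ∧ z ∈ N ∧ ∀ z' ∈ N ∩ L m, ψ m z' = ψ m z) ∧
      (∀ m, ∀ z ∈ L m, z ∈ nb (ψ m z)) := by
  classical
  obtain ⟨_, _⟩ := exists_wellOrder X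
  have hφex : ∀ x : X, ∃ a : X, x ∈ nb a ∧ ∀ b, x ∈ nb b → a ≤ b := by
    intro x
    obtain ⟨a, ha, hmin⟩ := WellFounded.has_min (wellFounded_lt (α := X)) {a | x ∈ nb a}
      ⟨x, hnm x⟩
    exact ⟨a, ha, fun b hb => not_lt.1 (hmin b hb)⟩
  choose φ hφ1 hφ2 using hφex
  obtain ⟨st, hst⟩ : ∃ st : ℕ → X → Set X, ∀ m x, st m x = ⋃₀ {s ∈ G m | x ∈ s} :=
    ⟨_, fun _ _ => rfl⟩
  have hsto : ∀ m x, IsOpen (st m x) := by
    intro m x
    rw [hst]
    exact isOpen_sUnion fun s hs => hGo m s hs.1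
  have hsts : ∀ m x y, y ∈ st m x → x ∈ st m y := by
    intro m x y h
    rw [hst] at h ⊢
    obtain ⟨s, hs, hy⟩ := h
    exact ⟨s, ⟨hs.1, hy⟩, hs.2⟩
  obtain ⟨L0, hL0⟩ : ∃ L0 : ℕ → Set X, ∀ m x, x ∈ L0 m ↔ x ∈ st m x ∧ st m x ⊆ nb (φ x) :=
    ⟨fun m => {x | x ∈ st m x ∧ st m x ⊆ nb (φ x)}, fun _ _ => Iff.rfl⟩
  have key : ∀ m x y, x ∈ L0 m → y ∈ L0 m → y ∈ st m x → φ x = φ y := by
    intro m x y hx hy hxy
    rw [hL0] at hx hy
    apply le_antisymm
    · exact hφ2 x _ (hy.2 (hsts m x y hxy))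
    · exact hφ2 y _ (hx.2 hxy)
  obtain ⟨L, hL⟩ : ∃ L : ℕ → Set X, ∀ m, L m = closure (L0 m) ∩ ⋃ x ∈ L0 m, st m x :=
    ⟨_, fun _ => rfl⟩
  have hLmem : ∀ m z, z ∈ L m → ∃ x ∈ L0 m, z ∈ st m x := by
    intro m z hz
    rw [hL] at hz
    obtain ⟨x, hx, hzx⟩ := mem_iUnion₂.1 hz.2
    exact ⟨x, hx, hzx⟩
  have hψex : ∀ m z, ∃ a : X, z ∈ L m → ∀ x ∈ L0 m, z ∈ st m x → φ x = a := by
    intro m z
    by_cases hz : z ∈ L m
    · obtain ⟨x, hx, hzx⟩ := hLmem m z hz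
      refine ⟨φ x, ?_⟩
      intro _ x' hx' hzx'
      rw [hL] at hz
      obtain ⟨w, ⟨hw1, hw2⟩, hw3⟩ := mem_closure_iff.1 hz.1 (st m x ∩ st m x')
        ((hsto m x).inter (hsto m x')) ⟨hzx, hzx'⟩
      rw [key m x w hx hw3 hw1, key m x' w hx' hw3 hw2]
    · exact ⟨z, fun h => absurd h hz⟩
  choose ψ hψ using hψex
  refine ⟨L, ψ, ?_, ?_, ?_, ?_⟩
  · intro x
    obtain ⟨m, hm1, hm2⟩ := hG x (nb (φ x)) (hno _) (hφ1 x)
    rw [← hst] at hm1 hm2
    have hx : x ∈ L0 m := (hL0 m x).2 ⟨hm1, hm2⟩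
    refine ⟨m, ?_⟩
    rw [hL]
    exact ⟨subset_closure hx, mem_iUnion₂.2 ⟨x, hx, hm1⟩⟩
  · intro m
    exact ⟨_, _, isClosed_closure, isOpen_biUnion fun x _ => hsto m x, hL m⟩
  · intro m z hz
    obtain ⟨x, hx, hzx⟩ := hLmem m z hz
    refine ⟨st m x, hsto m x, hzx, ?_⟩
    rintro z' ⟨hz'1, hz'2⟩
    rw [← hψ m z' hz'2 x hx hz'1, ← hψ m z hz x hx hzx]
  · intro m z hz
    obtain ⟨x, hx, hzx⟩ := hLmem m z hz
    rw [← hψ m z hz x hx hzx]
    exact ((hL0 m x).1 hx).2 hzx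

/-- A Hausdorff, locally compact, locally connected, locally second countable, hereditarily normal
quasi-developable space is metrizable. -/
theorem main {X : Type*} [TopologicalSpace X] [T2Space X] [LocallyCompactSpace X]
    [LocallyConnectedSpace X] [CompletelyNormalSpace X]
    (hsc : ∀ x : X, ∃ G : Set X, IsOpen G ∧ x ∈ G ∧ SecondCountableTopology G)
    (Q : ℕ → Set (Set X)) (hQo : ∀ k, ∀ s ∈ Q k, IsOpen s)
    (hQ : ∀ x : X, ∀ U : Set X, IsOpen U → x ∈ U →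
      ∃ k, x ∈ ⋃₀ {s ∈ Q k | x ∈ s} ∧ ⋃₀ {s ∈ Q k | x ∈ s} ⊆ U) : MetrizableSpace X := by
  apply Pool.Agent.Helper761.BB.metrizable_of_components
  intro x
  choose G hGo hGm hGs using hsc
  have hCo : IsOpen (connectedComponent x) := isOpen_connectedComponent
  haveI : LocallyConnectedSpace (connectedComponent x) := hCo.locallyConnectedSpace
  haveI : LocallyCompactSpace (connectedComponent x) := hCo.locallyCompactSpace
  haveI : ConnectedSpace (connectedComponent x) :=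
    isConnected_iff_connectedSpace.1 isConnected_connectedComponent
  let nb : connectedComponent x → Set (connectedComponent x) := fun y => Subtype.val ⁻¹' (G y.1)
  have hno : ∀ y, IsOpen (nb y) := fun y => (hGo y.1).preimage continuous_subtype_val
  have hnm : ∀ y, y ∈ nb y := fun y => hGm y.1
  have hns : ∀ y, SecondCountableTopology (nb y) := by
    intro y
    let f : nb y → G y.1 := fun z => ⟨z.1.1, z.2⟩
    have hf : Continuous f := by
      apply Continuous.subtype_mk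
      exact continuous_subtype_val.comp continuous_subtype_val
    have hgf : IsInducing ((Subtype.val : G y.1 → X) ∘ f) := by
      change IsInducing (fun z : nb y => z.1.1)
      exact IsInducing.subtypeVal.comp IsInducing.subtypeVal
    have hfi : IsInducing f := IsInducing.of_comp hf continuous_subtype_val hgf
    haveI := hGs y.1
    exact hfi.secondCountableTopology
  have hbase := fun y => exists_base (hno y) (hns y)
  choose B hBo hB using hbase
  obtain ⟨L, ψ, hL1, hL2, hL3, hL4⟩ := qd_decomp nb hnm hno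
    (fun k => (fun s : Set X => (Subtype.val ⁻¹' s : Set (connectedComponent x))) '' Q k)
    (by
      rintro k _ ⟨s, hs, rfl⟩
      exact (hQo k s hs).preimage continuous_subtype_val)
    (by
      intro y U hU hyU
      obtain ⟨U', hU', rfl⟩ := isOpen_induced_iff.1 hU
      obtain ⟨k, hk1, hk2⟩ := hQ y.1 U' hU' hyU
      refine ⟨k, ?_, ?_⟩
      · obtain ⟨s, hs, hys⟩ := hk1
        exact ⟨_, ⟨⟨s, hs.1, rfl⟩, hys⟩, hys⟩
      · rintro z ⟨_, ⟨⟨s, hs, rfl⟩, hys⟩, hzs⟩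
        exact hk2 ⟨s, ⟨hs, hys⟩, hzs⟩)
  obtain ⟨A, hA, hcov⟩ := connected_case nb hno hnm B hBo hB L ψ hL1 hL2 hL3 hL4
  haveI : Countable A := hA.to_subtype
  haveI : ∀ a : A, SecondCountableTopology (nb a.1) := fun a => hns a.1
  refine TopologicalSpace.secondCountableTopology_of_countable_cover (U := fun a : A => nb a.1)
    (fun a => hno a.1) ?_
  rw [← hcov, biUnion_eq_iUnion]

end Pool.Agent.Helper531.QD
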